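import Pool.Agent.T9h15.FC.DefCls
import Pool.Agent.Y69.ColDef

set_option autoImplicit false

/-! The class of groups, generated by the trivial group, and the trivial part of `K₁`. -/

namespace Pool.Agent.T9h15.FC

open H970SH Pool.Agent.Y69

/-- The smallest class of groups which contains the trivial group, is closed under directed unions
and contains each group `Γ` which acts without inversions on a tree such that the stabilisers of the
vertices and of the edges are in the class and such that, for some `m ≥ 1`, the groups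
`Γ_x ∩ Γ_y`, `x` and `y` vertices of distance `m`, are directed unions of groups `F_r × ℤⁿ`. -/
inductive TreeClassOne : (Γ : Type) → [Group Γ] → Prop
  | triv (Γ : Type) [Group Γ] (h : Subsingleton Γ) : TreeClassOne Γ
  | union (Γ : Type) [Group Γ] (H : Finset Γ → Subgroup Γ) (h : ∀ S, ∀ g ∈ S, g ∈ H S)
      (hH : ∀ S, TreeClassOne (H S)) : TreeClassOne Γ
  | tree (Γ : Type) [Group Γ] (V : Type) [MulAction Γ V] (T : SimpleGraph V) (hT : T.IsTree)
      (hact : ∀ (g : Γ) (u v : V), T.Adj u v → T.Adj (g • u) (g • v))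
      (hinv : ∀ (g : Γ) (u v : V), T.Adj u v → ¬ (g • u = v ∧ g • v = u))
      (hvert : ∀ v : V, TreeClassOne (MulAction.stabilizer Γ v))
      (hedge : ∀ x y : V, T.Adj x y → TreeClassOne
        (MulAction.stabilizer Γ x ⊓ MulAction.stabilizer Γ y : Subgroup Γ))
      (m : ℕ) (hm : 1 ≤ m)
      (hpath : ∀ x y : V, T.dist x y = m → LocFreeAb
        (MulAction.stabilizer Γ x ⊓ MulAction.stabilizer Γ y : Subgroup Γ)) : TreeClassOne Γ

/-- The subgroup of `K₁(R[Γ])` generated by the image of `K₁(R)` and the classes of the invertible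
`1 × 1` matrices `(g)`, `g ∈ Γ`. -/
def unitPart (R Γ : Type) [Ring R] [Group Γ] : AddSubgroup (K1 (MonoidAlgebra R Γ)) :=
  AddSubgroup.closure
    ({c | ∃ x : K1 R, c = K1map MonoidAlgebra.singleOneRingHom x} ∪
      {c | ∃ (g : Γ) (M : (Matrix (Fin 1) (Fin 1) (MonoidAlgebra R Γ))ˣ),
        (M : Matrix (Fin 1) (Fin 1) (MonoidAlgebra R Γ)) 0 0 = MonoidAlgebra.of R Γ g ∧
          c = K1.mk M})

end Pool.Agent.T9h15.FC
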