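import Pool.Agent.T9h15.FC.Prod
import Pool.Agent.T9h15.KN.KOne
import Pool.Agent.T9h15.FC.DefOne

set_option autoImplicit false
set_option linter.unusedSectionVars false
set_option linter.unusedSimpArgs false
set_option linter.unusedVariables false

/-! `K₁` for the class of groups. -/

namespace Pool.Agent.T9h15.FC

open Matrix H970SH H842 Pool.Agent.Y69 Pool.Agent.T9h15.KN Pool.Agent.T9h15.KZ

theorem locFreeAb_triv (Γ : Type) [Group Γ] (h : Subsingleton Γ) : LocFreeAb Γ := by
  intro S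
  refine ⟨⊤, 0, 0, fun g _ => Subgroup.mem_top g, ⟨?_⟩⟩
  haveI : Unique (⊤ : Subgroup Γ) := ⟨⟨1⟩, fun a => Subtype.ext (h.elim _ _)⟩
  haveI : Unique (FreeGroup (Fin 0) × (Fin 0 → Multiplicative ℤ)) :=
    ⟨⟨1⟩, fun a => Prod.ext (Subsingleton.elim _ _) (Subsingleton.elim _ _)⟩
  exact MulEquiv.ofUnique

theorem TreeClassOne.to {Γ : Type} [Group Γ] (h : TreeClassOne Γ) : TreeClass Γ := by
  induction h with
  | triv Γ h => exact TreeClass.basic Γ (locFreeAb_triv Γ h)
  | union Γ H h hH ih => exact TreeClass.union Γ H h ih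
  | tree Γ V T hT hact hinv hvert hedge m hm hpath ihv ihe =>
    exact TreeClass.tree Γ V T hT hact hinv ihv ihe m hm hpath

theorem K1map_comp {A B C : Type} [Ring A] [Ring B] [Ring C] (f : A →+* B) (g : B →+* C)
    (x : K1 A) : K1map g (K1map f x) = K1map (g.comp f) x := by
  obtain ⟨n, M, rfl⟩ := K1_exists x
  rw [cl_fin]
  rfl

theorem unitPart_map {R Γ Δ : Type} [Ring R] [Group Γ] [Group Δ] (φ : Γ →* Δ)
    {x : K1 (MonoidAlgebra R Γ)} (hx : x ∈ unitPart R Γ) :
    K1map (MonoidAlgebra.mapDomainRingHom R φ) x ∈ unitPart R Δ := by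
  have h : unitPart R Γ ≤ (unitPart R Δ).comap
      (K1map (MonoidAlgebra.mapDomainRingHom R φ)) := by
    unfold unitPart
    rw [AddSubgroup.closure_le]
    rintro c (⟨x, rfl⟩ | ⟨g, M, hM, rfl⟩)
    · change K1map (MonoidAlgebra.mapDomainRingHom R φ)
        (K1map (MonoidAlgebra.singleOneRingHom : R →+* MonoidAlgebra R Γ) x) ∈ unitPart R Δ
      rw [K1map_comp]
      have h1 : (MonoidAlgebra.mapDomainRingHom R φ).comp
          (MonoidAlgebra.singleOneRingHom : R →+* MonoidAlgebra R Γ)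
          = MonoidAlgebra.singleOneRingHom := by
        refine RingHom.ext fun r => ?_
        change MonoidAlgebra.mapDomain φ (MonoidAlgebra.single 1 r) = MonoidAlgebra.single 1 r
        rw [MonoidAlgebra.mapDomain_single, map_one]
      rw [h1]
      exact AddSubgroup.subset_closure (Or.inl ⟨x, rfl⟩)
    · refine AddSubgroup.subset_closure (Or.inr ⟨φ g, Units.map
        (MonoidAlgebra.mapDomainRingHom R φ).mapMatrix.toMonoidHom M, ?_, rfl⟩)
      change MonoidAlgebra.mapDomainRingHom R φ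
        ((M : Matrix (Fin 1) (Fin 1) (MonoidAlgebra R Γ)) 0 0) = _
      rw [hM]
      change MonoidAlgebra.mapDomain φ (MonoidAlgebra.single g 1) = MonoidAlgebra.single (φ g) 1
      rw [MonoidAlgebra.mapDomain_single]
  exact h hx

theorem unitPart_triv (R Γ : Type) [Ring R] [Group Γ] (h : Subsingleton Γ) :
    unitPart R Γ = ⊤ := by
  rw [eq_top_iff]
  intro x _
  have hb : Function.Bijective (MonoidAlgebra.singleOneRingHom : R →+* MonoidAlgebra R Γ) := by
    constructor
    · intro a b hab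
      have h1 := congrArg (fun y : MonoidAlgebra R Γ => y.coeff 1) hab
      simpa using h1
    · intro y
      refine ⟨y.coeff 1, ?_⟩
      ext g
      rw [h.elim g 1]
      simp
  let e : R ≃+* MonoidAlgebra R Γ := RingEquiv.ofBijective _ hb
  refine AddSubgroup.subset_closure (Or.inl ⟨K1map (e.symm : MonoidAlgebra R Γ →+* R) x, ?_⟩)
  rw [K1map_comp]
  obtain ⟨n, M, rfl⟩ := K1_exists x
  rw [cl_fin]
  change K1.mk M = K1.mk (Units.map _ _)
  congr 1
  apply Units.ext
  ext1 i j
  exact (e.apply_symm_apply _).symm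

theorem unitPart_union (R Γ : Type) [Ring R] [Group Γ] (H : Finset Γ → Subgroup Γ)
    (h : ∀ S, ∀ g ∈ S, g ∈ H S) (hH : ∀ S, unitPart R (H S) = ⊤) : unitPart R Γ = ⊤ := by
  classical
  rw [eq_top_iff]
  intro x _
  obtain ⟨n, M, rfl⟩ := K1_exists x
  rw [cl_fin]
  obtain ⟨S1, hS1⟩ := exists_supp M.val
  obtain ⟨S2, hS2⟩ := exists_supp (M⁻¹).val
  obtain ⟨A, hA⟩ := exists_map (H (S1 ∪ S2)) M.val
    fun i j g hg => h _ g (Finset.mem_union_left _ (hS1 i j g hg))
  obtain ⟨B, hB⟩ := exists_map (H (S1 ∪ S2)) (M⁻¹).val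
    fun i j g hg => h _ g (Finset.mem_union_right _ (hS2 i j g hg))
  have hinj : ∀ X Y : Matrix (Fin n) (Fin n) (MonoidAlgebra R (H (S1 ∪ S2))),
      X.map (inc R (H (S1 ∪ S2))) = Y.map (inc R (H (S1 ∪ S2))) → X = Y := by
    intro X Y hXY
    ext1 i j
    exact inc_injective _ (congrFun (congrFun hXY i) j)
  have hone : (1 : Matrix (Fin n) (Fin n) (MonoidAlgebra R (H (S1 ∪ S2)))).map
      (inc R (H (S1 ∪ S2))) = 1 := Matrix.map_one _ (map_zero _) (map_one _)
  let U : (Matrix (Fin n) (Fin n) (MonoidAlgebra R (H (S1 ∪ S2))))ˣ :=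
    ⟨A, B, hinj _ _ (by rw [map_mul', hA, hB, hone, Units.mul_inv]),
      hinj _ _ (by rw [map_mul', hA, hB, hone, Units.inv_mul])⟩
  have h1 : K1map (MonoidAlgebra.mapDomainRingHom R (H (S1 ∪ S2)).subtype) (K1.mk U)
      = K1.mk M := by
    change K1.mk (Units.map _ _) = _
    congr 1
    apply Units.ext
    exact hA
  rw [← h1]
  refine unitPart_map _ ?_
  rw [hH]
  exact AddSubgroup.mem_top _

/-- `K₁(R[Γ])` for the groups of the class -/
theorem unitPart_class {Γ : Type} [Group Γ] (h : TreeClassOne Γ) :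
    ∀ (R : Type) [CommRing R] [Nontrivial R], FFRing R → unitPart R Γ = ⊤ := by
  induction h with
  | triv Γ h => exact fun R _ _ _ => unitPart_triv R Γ h
  | union Γ H h hH ih => exact fun R _ _ hR => unitPart_union R Γ H h fun S => ih S R hR
  | tree Γ V T hT hact hinv hvert hedge m hm hpath ihv ihe =>
    intro R _ _ hR
    obtain ⟨k, rfl⟩ : ∃ k, m = k + 1 := ⟨m - 1, by omega⟩
    refine k1_tree hT hact hinv (fun x y hxy => sfree_tree (hedge x y hxy).to R hR) k
      (fun x y hxy => regCoh_locFreeAb hbasic T9h91.FC.iso (hpath x y hxy) R hR) _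
      (fun v x => ?_) (fun g M hM => AddSubgroup.subset_closure (Or.inr ⟨g, M, hM, rfl⟩))
    refine unitPart_map _ ?_
    rw [ihv v R hR]
    exact AddSubgroup.mem_top _

end Pool.Agent.T9h15.FC
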